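import Pool.Agent.Q267.E8.Stm2

set_option autoImplicit false

/-!
# Jobs K1 and EV (project E8 of helper267, second part)
-/

namespace Pool.Agent.Q214.E8

open Finset Pool.Agent.Q267.E8

theorem diff_id {m n : ℕ} (h : n ≤ m) :
    ∑ k ∈ range (n + 1), (-1 : ℤ) ^ (n - k) * (n.choose k : ℤ) * ((m + k).choose k : ℤ) = m.choose n := by
  have h1 := fwdDiff_iter_eq_sum_shift (1 : ℕ) (fun x : ℕ => ((x.choose m : ℕ) : ℤ)) n m
  have h2 := congrFun (fwdDiff_iter_choose (m - n) n) m
  rw [Nat.add_sub_cancel' h] at h2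
  rw [h2, Nat.choose_symm h] at h1
  rw [h1]
  refine sum_congr rfl fun k _ => ?_
  rw [smul_eq_mul, smul_eq_mul, mul_one, Nat.choose_symm_add]

theorem k1_poly {S : Type} [CommRing S] (m : ℕ) (z : S) :
    ∑ k ∈ range (m + 1), ((m.choose k : ℕ) : S) * (((m + k).choose k : ℕ) : S) * z ^ k * (1 - z) ^ (m - k) =
      ∑ k ∈ range (m + 1), ((m.choose k : ℕ) : S) ^ 2 * z ^ k := by
  have h1 : ∀ k ∈ range (m + 1), ((m.choose k : ℕ) : S) * (((m + k).choose k : ℕ) : S) * z ^ k *
      (1 - z) ^ (m - k) = ∑ j ∈ range (m + 1 - k), (fun k j => ((m.choose k : ℕ) : S) *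
        (((m + k).choose k : ℕ) : S) * (((m - k).choose j : ℕ) : S) * ((-1) ^ j * z ^ (k + j))) k j := by
    intro k hk
    rw [mem_range] at hk
    have h2 : m + 1 - k = m - k + 1 := by omega
    rw [h2, sub_eq_add_neg, add_comm (1 : S), add_pow, mul_sum]
    refine sum_congr rfl fun j _ => ?_
    rw [one_pow, neg_pow]
    beta_reduce
    rw [pow_add z]
    ring
  rw [sum_congr rfl h1, ← sum_range_diag_flip]
  refine sum_congr rfl fun n hn => ?_
  rw [mem_range] at hn
  have h3 : ∀ k ∈ range (n + 1), (fun k j => ((m.choose k : ℕ) : S) *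
        (((m + k).choose k : ℕ) : S) * (((m - k).choose j : ℕ) : S) * ((-1) ^ j * z ^ (k + j))) k (n - k) =
      ((m.choose n : ℕ) : S) * z ^ n * (((-1 : ℤ) ^ (n - k) * (n.choose k : ℤ) * ((m + k).choose k : ℤ) : ℤ) : S) := by
    intro k hk
    rw [mem_range] at hk
    have h4 : m.choose n * n.choose k = m.choose k * (m - k).choose (n - k) :=
      Nat.choose_mul (by omega)
    have h5 : ((m.choose n : ℕ) : S) * ((n.choose k : ℕ) : S) = ((m.choose k : ℕ) : S) *
        (((m - k).choose (n - k) : ℕ) : S) := by exact_mod_cast congrArg (Nat.cast (R := S)) h4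
    have h6 : k + (n - k) = n := by omega
    show ((m.choose k : ℕ) : S) * (((m + k).choose k : ℕ) : S) * (((m - k).choose (n - k) : ℕ) : S) *
      ((-1) ^ (n - k) * z ^ (k + (n - k))) = _
    rw [h6]
    push_cast
    linear_combination (-((((m + k).choose k : ℕ) : S) * (-1) ^ (n - k) * z ^ n)) * h5
  rw [sum_congr rfl h3, ← mul_sum, ← Int.cast_sum, diff_id (by omega), Int.cast_natCast]
  ring

/-- Job K1. -/
theorem k1 : S_K1 := by
  intro S _ m z v h
  unfold Kf Ff
  rw [← k1_poly, mul_sum]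
  refine sum_congr rfl fun k hk => ?_
  rw [mem_range] at hk
  have h1 : (1 - z) ^ m * v ^ k = (1 - z) ^ (m - k) := by
    conv_lhs => rw [← Nat.sub_add_cancel (by omega : k ≤ m), pow_add]
    rw [mul_assoc, ← mul_pow, h, one_pow, mul_one]
  rw [neg_pow (z * v), mul_pow, ← h1]
  have h2 : ((-1 : S) ^ k) * (-1) ^ k = 1 := by rw [← mul_pow]; simp
  linear_combination (-(((m.choose k : ℕ) : S) * (((m + k).choose k : ℕ) : S) * z ^ k * ((1 - z) ^ m * v ^ k))) * h2

theorem ev_left {S : Type} [CommRing S] (m : ℕ) (w : S) :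
    ((Polynomial.C w * (1 + Polynomial.X) ^ 2 + Polynomial.X : Polynomial S) ^ m).coeff m = Ef m w := by
  rw [add_pow, Polynomial.finsetSum_coeff]
  unfold Ef
  refine sum_congr rfl fun k hk => ?_
  rw [mem_range] at hk
  have h1 : ((Polynomial.C w * (1 + Polynomial.X) ^ 2 : Polynomial S) ^ k * Polynomial.X ^ (m - k) *
      ((m.choose k : ℕ) : Polynomial S)) =
      Polynomial.C (w ^ k * ((m.choose k : ℕ) : S)) * ((1 + Polynomial.X) ^ (2 * k) * Polynomial.X ^ (m - k)) := by
    rw [mul_pow, ← pow_mul, Polynomial.C_mul, Polynomial.C_pow, Polynomial.C_eq_natCast]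
    ring
  rw [h1, Polynomial.coeff_C_mul, Polynomial.coeff_mul_X_pow', if_pos (by omega),
    (by omega : m - (m - k) = k), Polynomial.coeff_one_add_X_pow, Nat.centralBinom]
  ring

theorem coeff_sq {S : Type} [CommRing S] (i : ℕ) :
    ((1 + Polynomial.X ^ 2 : Polynomial S) ^ i).coeff i = if 2 ∣ i then ((i.choose (i / 2) : ℕ) : S) else 0 := by
  have h1 : (1 + Polynomial.X ^ 2 : Polynomial S) ^ i = Polynomial.expand S 2 ((1 + Polynomial.X) ^ i) := by
    simp
  rw [h1, Polynomial.coeff_expand (by norm_num), Polynomial.coeff_one_add_X_pow]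

theorem sum_even {S : Type} [CommRing S] (m : ℕ) (h : ℕ → S) :
    ∑ i ∈ range (m + 1), (if 2 ∣ i then h i else 0) = ∑ j ∈ range (m / 2 + 1), h (2 * j) := by
  rw [← sum_filter]
  symm
  refine sum_bij (fun j _ => 2 * j) ?_ ?_ ?_ ?_
  · intro j hj
    rw [mem_range] at hj
    rw [mem_filter, mem_range]
    exact ⟨by omega, by omega⟩
  · intro a _ b _ hab
    have : 2 * a = 2 * b := hab
    omega
  · intro i hi
    rw [mem_filter, mem_range] at hi
    obtain ⟨h1, c, rfl⟩ := hi
    exact ⟨c, mem_range.2 (by omega), rfl⟩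
  · intro _ _
    rfl

theorem ev_right {S : Type} [CommRing S] (m : ℕ) (r w : S) :
    ((Polynomial.C w * (1 + Polynomial.X ^ 2) + Polynomial.C r * Polynomial.X : Polynomial S) ^ m).coeff m =
      Pf m r (w ^ 2) := by
  rw [add_pow, Polynomial.finsetSum_coeff]
  have h0 : ∀ i ∈ range (m + 1), ((Polynomial.C w * (1 + Polynomial.X ^ 2) : Polynomial S) ^ i *
      (Polynomial.C r * Polynomial.X) ^ (m - i) * ((m.choose i : ℕ) : Polynomial S)).coeff m =
      if 2 ∣ i then ((m.choose i : ℕ) : S) * ((i.choose (i / 2) : ℕ) : S) * r ^ (m - i) * w ^ i else 0 := by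
    intro i hi
    rw [mem_range] at hi
    have h1 : ((Polynomial.C w * (1 + Polynomial.X ^ 2) : Polynomial S) ^ i *
        (Polynomial.C r * Polynomial.X) ^ (m - i) * ((m.choose i : ℕ) : Polynomial S)) =
        Polynomial.C (w ^ i * r ^ (m - i) * ((m.choose i : ℕ) : S)) *
          ((1 + Polynomial.X ^ 2) ^ i * Polynomial.X ^ (m - i)) := by
      rw [mul_pow, mul_pow, Polynomial.C_mul, Polynomial.C_mul, Polynomial.C_pow, Polynomial.C_pow,
        Polynomial.C_eq_natCast]
      ring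
    rw [h1, Polynomial.coeff_C_mul, Polynomial.coeff_mul_X_pow', if_pos (by omega),
      (by omega : m - (m - i) = i), coeff_sq]
    by_cases h : 2 ∣ i
    · rw [if_pos h, if_pos h]
      ring
    · rw [if_neg h, if_neg h, mul_zero]
  rw [sum_congr rfl h0, sum_even]
  unfold Pf
  refine sum_congr rfl fun j _ => ?_
  rw [Nat.mul_div_cancel_left j (by norm_num), Nat.centralBinom, ← pow_mul]

/-- Job EV. -/
theorem ev : S_EV := by
  intro S _ m w
  rw [← ev_left, ← ev_right]
  congr 2
  rw [Polynomial.C_add, Polynomial.C_mul, Polynomial.C_1]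
  have : (Polynomial.C (2 : S)) = 2 := Polynomial.C_ofNat 2
  rw [this]
  ring

end Pool.Agent.Q214.E8
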