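import Pool.Agent.Q267.E8.Stm

set_option autoImplicit false

/-!
# Jobs WA and WC (project E8 of helper267)
-/

namespace Pool.Agent.Q214.E8

open Finset Pool.Agent.Q267.E8

theorem sum_root {W : Type} [CommRing W] [IsDomain W] {w : W} {N : ℕ} (hw : IsPrimitiveRoot w N)
    (E : ℕ) : ∑ i ∈ range N, w ^ (i * E) = if N ∣ E then (N : W) else 0 := by
  have h1 : ∀ i ∈ range N, w ^ (i * E) = (w ^ E) ^ i := by
    intro i _
    rw [← pow_mul, mul_comm]
  rw [sum_congr rfl h1]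
  by_cases h : N ∣ E
  · rw [if_pos h, (hw.pow_eq_one_iff_dvd E).2 h]
    simp
  · rw [if_neg h]
    have h2 : w ^ E ≠ 1 := fun h' => h ((hw.pow_eq_one_iff_dvd E).1 h')
    have h3 := geom_sum_mul (w ^ E) N
    rw [← pow_mul, mul_comm E N, pow_mul, hw.pow_eq_one, one_pow, sub_self, mul_eq_zero] at h3
    rcases h3 with h3 | h3
    · exact h3
    · exact absurd (sub_eq_zero.1 h3) h2

theorem half_root {W : Type} [CommRing W] [IsDomain W] {w : W} {N : ℕ} (hN : 0 < N) (h2 : 2 ∣ N)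
    (hw : IsPrimitiveRoot w N) : w ^ (N / 2) = -1 := by
  have h1 : (w ^ (N / 2)) ^ 2 = 1 := by
    rw [← pow_mul, Nat.div_mul_cancel h2, hw.pow_eq_one]
  have h3 : (w ^ (N / 2) - 1) * (w ^ (N / 2) + 1) = 0 := by linear_combination h1
  rcases mul_eq_zero.1 h3 with h | h
  · exfalso
    have := Nat.le_of_dvd (by omega) ((hw.pow_eq_one_iff_dvd _).1 (sub_eq_zero.1 h))
    omega
  · exact eq_neg_of_add_eq_zero_left h

/-- Job WA. -/
theorem wa : S_WA := by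
  intro W _ _ w N M hN h4 hw
  have h2 : 2 ∣ N := dvd_trans (by norm_num) h4
  have hh := half_root hN h2 hw
  have h1 : ∀ i ∈ range N, (-1 : W) ^ i * (w ^ (2 * i) + (w ^ (N - 1)) ^ (2 * i)) ^ M =
      ∑ j ∈ range (M + 1), (M.choose j : W) * w ^ (i * (N / 2 + 2 * j + (N - 1) * (2 * (M - j)))) := by
    intro i _
    rw [add_pow, mul_sum]
    refine sum_congr rfl fun j _ => ?_
    rw [← hh, ← pow_mul, ← pow_mul, ← pow_mul, ← pow_mul]
    have : w ^ (i * (N / 2 + 2 * j + (N - 1) * (2 * (M - j)))) =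
        w ^ (N / 2 * i) * (w ^ (2 * i * j) * w ^ ((N - 1) * (2 * i) * (M - j))) := by
      rw [← pow_add, ← pow_add]
      congr 1
      ring
    rw [this]
    ring
  rw [sum_congr rfl h1, sum_comm]
  have h5 : ∀ j ∈ range (M + 1), ∑ i ∈ range N, (M.choose j : W) *
      w ^ (i * (N / 2 + 2 * j + (N - 1) * (2 * (M - j)))) =
      (N : W) * (((if (N : ℤ) ∣ ((N / 2 : ℕ) : ℤ) + 4 * j - 2 * M then (M.choose j : ℤ) else 0) : ℤ) : W) := by
    intro j hj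
    rw [mem_range] at hj
    rw [← mul_sum, sum_root hw]
    have h6 : N ∣ N / 2 + 2 * j + (N - 1) * (2 * (M - j)) ↔
        (N : ℤ) ∣ ((N / 2 : ℕ) : ℤ) + 4 * j - 2 * M := by
      rw [← Int.natCast_dvd_natCast]
      have h7 : ((N / 2 + 2 * j + (N - 1) * (2 * (M - j)) : ℕ) : ℤ) =
          (((N / 2 : ℕ) : ℤ) + 4 * j - 2 * M) + (N : ℤ) * (2 * ((M : ℤ) - j)) := by
        rw [Nat.cast_add, Nat.cast_add, Nat.cast_mul, Nat.cast_mul, Nat.cast_mul,
          Nat.cast_sub (by omega : j ≤ M), Nat.cast_sub (by omega : 1 ≤ N)]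
        push_cast
        ring
      rw [h7]
      exact dvd_add_left (Dvd.intro _ rfl)
    by_cases h : (N : ℤ) ∣ ((N / 2 : ℕ) : ℤ) + 4 * j - 2 * M
    · rw [if_pos h, if_pos (h6.2 h), Int.cast_natCast, mul_comm]
    · rw [if_neg h, if_neg (fun h' => h (h6.1 h')), Int.cast_zero, mul_zero, mul_zero]
  rw [sum_congr rfl h5, ← mul_sum]
  unfold A
  rw [Int.cast_sum]

theorem gen {W : Type} [CommRing W] [IsDomain W] {K : Type} [Field K] (c : W →+* K) (p : ℕ) (hp : (p : W) ≠ 0)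
    (hc : (p : K) = 0) : ¬ ((p : W)) ^ 2 ∣ (p : W) := by
  rintro ⟨x, hx⟩
  have h1 : (p : W) * 1 = (p : W) * (p * x) := by
    rw [mul_one, ← mul_assoc, ← sq]
    exact hx
  have h2 := mul_left_cancel₀ hp h1
  have h3 := congrArg c h2
  rw [map_one, map_mul, map_natCast, hc, zero_mul] at h3
  exact one_ne_zero h3

theorem gen2 {W : Type} [CommRing W] [IsDomain W] {K : Type} [Field K] (c : W →+* K) (p : ℕ) (hp : (p : W) ≠ 0)
    (hc : (p : K) = 0) (hpp : p.Prime) (n : ℤ) (h : ((p : W)) ^ 2 ∣ (n : W)) : (p : ℤ) ^ 2 ∣ n := by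
  by_contra hn
  have h1 : Int.gcd n ((p : ℤ) ^ 2) ∣ p ^ 2 := by
    have := Int.gcd_dvd_right n ((p : ℤ) ^ 2)
    exact_mod_cast this
  obtain ⟨i, hi, hg⟩ := (Nat.dvd_prime_pow hpp).1 h1
  have hi2 : i ≠ 2 := by
    rintro rfl
    have := Int.gcd_dvd_left n ((p : ℤ) ^ 2)
    rw [hg] at this
    exact hn (by exact_mod_cast this)
  have h2 : (Int.gcd n ((p : ℤ) ^ 2) : ℤ) ∣ p := by
    rw [hg]
    have : p ^ i ∣ p ^ 1 := pow_dvd_pow p (by omega)
    rw [pow_one] at this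
    exact_mod_cast this
  obtain ⟨d, hd⟩ := h2
  have hb := Int.gcd_eq_gcd_ab n ((p : ℤ) ^ 2)
  refine gen c p hp hc ?_
  have h4 : (p : ℤ) = n * (Int.gcdA n ((p : ℤ) ^ 2) * d) + (p : ℤ) ^ 2 * (Int.gcdB n ((p : ℤ) ^ 2) * d) := by
    conv_lhs => rw [hd, hb]
    ring
  have h3 : (p : W) = ((n : ℤ) : W) * ((Int.gcdA n ((p : ℤ) ^ 2) * d : ℤ) : W) +
      (p : W) ^ 2 * ((Int.gcdB n ((p : ℤ) ^ 2) * d : ℤ) : W) := by
    have h5 := congrArg (fun z : ℤ => (z : W)) h4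
    simp only [Int.cast_add, Int.cast_mul, Int.cast_pow, Int.cast_natCast] at h5 ⊢
    exact h5
  have h6 : (p : W) ^ 2 ∣ ((n : ℤ) : W) * ((Int.gcdA n ((p : ℤ) ^ 2) * d : ℤ) : W) +
      (p : W) ^ 2 * ((Int.gcdB n ((p : ℤ) ^ 2) * d : ℤ) : W) :=
    dvd_add (Dvd.dvd.mul_right h _) (Dvd.intro _ rfl)
  rwa [← h3] at h6

/-- Job WC. -/
theorem wc : S_WC := fun p _ K _ _ _ n h =>
  gen2 (WittVector.constantCoeff (p := p) (R := K)) p (WittVector.p_nonzero p K) (CharP.cast_eq_zero K p)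
    Fact.out n h

end Pool.Agent.Q214.E8
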